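import Pool.Agent.K1H76.RG.Stm3

/-! # B2: `S_DEV` from `S_EULLOG` and `S_MSQ` -/

set_option autoImplicit false

namespace Pool.Agent.K1H48.RG

open Filter Finset Topology
open Pool.Agent.K1H76.RG

lemma log_norm {z : ℂ} (hz : ‖z‖ ≤ 1 / 2) : |Real.log ‖1 - z‖ + z.re| ≤ ‖z‖ ^ 2 := by
  have h1 := Complex.norm_log_one_add_sub_self_le (z := -z) (by rw [norm_neg]; linarith)
  have h2 : (Complex.log (1 + -z) - -z).re = Real.log ‖1 - z‖ + z.re := by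
    rw [Complex.sub_re, Complex.log_re, Complex.neg_re, sub_neg_eq_add, ← sub_eq_add_neg]
  rw [← h2]
  refine (Complex.abs_re_le_norm _).trans (h1.trans ?_)
  rw [norm_neg]
  have h3 : (1 - ‖z‖)⁻¹ ≤ 2 := by
    rw [inv_le_comm₀ (by linarith) (by norm_num)]
    linarith
  have h4 : 0 ≤ ‖z‖ ^ 2 := by positivity
  have h5 := mul_le_mul_of_nonneg_left h3 h4
  linarith

lemma Pr_split {Q Y : ℕ} (h : Q ≤ Y) (f : ℕ → ℝ) :
    ∑ q ∈ Pr Y, f q = ∑ q ∈ Pr Q, f q + ∑ q ∈ (Ioc Q Y).filter Nat.Prime, f q := by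
  classical
  rw [← Finset.sum_union]
  · congr 1
    ext q
    simp only [Finset.mem_union, mem_Pr, Finset.mem_filter, Finset.mem_Ioc]
    constructor
    · rintro ⟨h1, h2⟩
      rcases le_or_gt q Q with h3 | h3
      · exact Or.inl ⟨h3, h2⟩
      · exact Or.inr ⟨⟨h3, h1⟩, h2⟩
    · rintro (⟨h1, h2⟩ | ⟨⟨_, h1⟩, h2⟩)
      · exact ⟨h1.trans h, h2⟩
      · exact ⟨h1, h2⟩
  · rw [Finset.disjoint_left]
    intro q h1 h2
    have h3 := (mem_Pr.1 h1).1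
    have h4 := (Finset.mem_Ioc.1 (Finset.mem_filter.1 h2).1).1
    omega

/-- the middle range -/
lemma mid {Q Y p : ℕ} (hQ : 1 ≤ Q) (χ : DirichletCharacter ℂ p) :
    |∑ q ∈ (Ioc Q Y).filter Nat.Prime, Real.log ‖1 - χ (q : ZMod p) / (q : ℂ)‖| ≤
      ‖∑ q ∈ (Ioc Q Y).filter Nat.Prime, χ (q : ZMod p) / (q : ℂ)‖ + 1 / (Q : ℝ) := by
  have h1 : ∀ q ∈ (Ioc Q Y).filter Nat.Prime,
      |Real.log ‖1 - χ (q : ZMod p) / (q : ℂ)‖ + (χ (q : ZMod p) / (q : ℂ)).re| ≤ 1 / (q : ℝ) ^ 2 := by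
    intro q hq
    have hqp := (Finset.mem_filter.1 hq).2
    have hq2 : (2 : ℝ) ≤ q := by exact_mod_cast hqp.two_le
    have hn : ‖χ (q : ZMod p) / (q : ℂ)‖ ≤ 1 / q := by
      rw [norm_div, Complex.norm_natCast]
      exact div_le_div_of_nonneg_right (χ.norm_le_one _) (by positivity)
    have hn2 : ‖χ (q : ZMod p) / (q : ℂ)‖ ≤ 1 / 2 :=
      hn.trans (one_div_le_one_div_of_le (by norm_num) hq2)
    refine (log_norm hn2).trans ?_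
    calc ‖χ (q : ZMod p) / (q : ℂ)‖ ^ 2 ≤ (1 / (q : ℝ)) ^ 2 := pow_le_pow_left₀ (norm_nonneg _) hn 2
      _ = _ := by rw [one_div_pow]
  have h2 : ∑ q ∈ (Ioc Q Y).filter Nat.Prime, Real.log ‖1 - χ (q : ZMod p) / (q : ℂ)‖ =
      ∑ q ∈ (Ioc Q Y).filter Nat.Prime, (Real.log ‖1 - χ (q : ZMod p) / (q : ℂ)‖ + (χ (q : ZMod p) / (q : ℂ)).re) -
        (∑ q ∈ (Ioc Q Y).filter Nat.Prime, χ (q : ZMod p) / (q : ℂ)).re := by
    rw [Complex.re_sum, ← Finset.sum_sub_distrib]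
    refine Finset.sum_congr rfl fun q _ => ?_
    ring
  rw [h2]
  have h3 : |∑ q ∈ (Ioc Q Y).filter Nat.Prime, (Real.log ‖1 - χ (q : ZMod p) / (q : ℂ)‖ +
      (χ (q : ZMod p) / (q : ℂ)).re)| ≤ 1 / (Q : ℝ) :=
    (Finset.abs_sum_le_sum_abs _ _).trans ((Finset.sum_le_sum h1).trans (tail_sq Q Y hQ))
  have h4 := Complex.abs_re_le_norm (∑ q ∈ (Ioc Q Y).filter Nat.Prime, χ (q : ZMod p) / (q : ℂ))
  have h5 := abs_sub (∑ q ∈ (Ioc Q Y).filter Nat.Prime, (Real.log ‖1 - χ (q : ZMod p) / (q : ℂ)‖ +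
      (χ (q : ZMod p) / (q : ℂ)).re)) (∑ q ∈ (Ioc Q Y).filter Nat.Prime, χ (q : ZMod p) / (q : ℂ)).re
  linarith

lemma dev_le {Q Y p : ℕ} [NeZero p] (hQ : 1 ≤ Q) (hQY : Q ≤ Y) (χ : DirichletCharacter ℂ p) :
    dev Q χ ≤ dev Y χ + ‖∑ q ∈ (Ioc Q Y).filter Nat.Prime, χ (q : ZMod p) / (q : ℂ)‖ + 1 / (Q : ℝ) := by
  unfold dev
  have h1 := Pr_split hQY (fun q => Real.log ‖1 - χ (q : ZMod p) / (q : ℂ)‖)
  have h2 := mid (Y := Y) hQ χ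
  have h3 : Real.log ‖DirichletCharacter.LFunction χ 1‖ +
      ∑ q ∈ Pr Q, Real.log ‖1 - χ (q : ZMod p) / (q : ℂ)‖ =
      (Real.log ‖DirichletCharacter.LFunction χ 1‖ +
        ∑ q ∈ Pr Y, Real.log ‖1 - χ (q : ZMod p) / (q : ℂ)‖) -
        ∑ q ∈ (Ioc Q Y).filter Nat.Prime, Real.log ‖1 - χ (q : ZMod p) / (q : ℂ)‖ := by
    rw [h1]; ring
  rw [h3]
  refine (abs_sub _ _).trans ?_
  linarith

/-- the size of `log log Y` -/
lemma size {A : ℝ} (hA : 1 ≤ A) {c : ℝ} (hc : 0 < c) (Q : ℕ) : ∀ᶠ x : ℕ in atTop,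
    3 ≤ x ∧ Q ≤ ⌈(2 * Real.log x) ^ A⌉₊ ∧ 3 ≤ ⌈(2 * Real.log x) ^ A⌉₊ ∧ 0 < Real.log (Real.log x) ∧
      1 ≤ c * Real.log (Real.log x) ∧
      (1 + Real.log (Real.log ⌈(2 * Real.log x) ^ A⌉₊)) ^ 3 ≤ c * Real.log (Real.log x) := by
  have hlog : Tendsto (fun x : ℕ => Real.log x) atTop atTop :=
    Real.tendsto_log_atTop.comp tendsto_natCast_atTop_atTop
  have hL : Tendsto (fun x : ℕ => Real.log (Real.log x)) atTop atTop := Real.tendsto_log_atTop.comp hlog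
  have hlit : ∀ᶠ u : ℝ in atTop, Real.log u ^ 3 ≤ c / 27 * u := by
    have h := (Real.isLittleO_pow_log_id_atTop (n := 3)).def (c := c / 27) (by positivity)
    filter_upwards [h, eventually_ge_atTop (1 : ℝ)] with u hu hu1
    rw [Real.norm_of_nonneg (pow_nonneg (Real.log_nonneg hu1) 3), id, Real.norm_of_nonneg (by linarith)] at hu
    exact hu
  have hq : ∀ᶠ u : ℝ in atTop, A * (Real.log 3 + u) ≤ u ^ 2 := by
    filter_upwards [eventually_ge_atTop (A * (Real.log 3 + 1) + 1)] with u hu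
    have h3 : 0 ≤ Real.log 3 := Real.log_nonneg (by norm_num)
    have hAl : 0 ≤ A * Real.log 3 := mul_nonneg (by linarith) h3
    have hu1 : 1 ≤ u := by nlinarith
    have h4 : A * (Real.log 3 + 1) * u ≤ u * u := mul_le_mul_of_nonneg_right (by linarith) (by linarith)
    have h5 : A * Real.log 3 * 1 ≤ A * Real.log 3 * u := mul_le_mul_of_nonneg_left hu1 hAl
    nlinarith
  filter_upwards [eventually_ge_atTop 3, hlog.eventually_ge_atTop (max 3 (Q : ℝ)), hL.eventually_ge_atTop 3,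
    hL.eventually_ge_atTop (1 / c), hL.eventually hlit, hL.eventually hq] with x hx hx1 hL3 hLc hlt hqq
  have hu3 : 3 ≤ Real.log x := (le_max_left _ _).trans hx1
  have huQ : (Q : ℝ) ≤ Real.log x := (le_max_right _ _).trans hx1
  obtain ⟨u, hu⟩ : ∃ u, u = Real.log x := ⟨_, rfl⟩
  rw [← hu] at hu3 huQ hL3 hLc hlt hqq ⊢
  obtain ⟨l, hl⟩ : ∃ l, l = Real.log u := ⟨_, rfl⟩
  rw [← hl] at hL3 hLc hlt hqq ⊢
  have hge : 2 * u ≤ (2 * u) ^ A := by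
    calc 2 * u = (2 * u) ^ (1 : ℝ) := (Real.rpow_one _).symm
      _ ≤ (2 * u) ^ A := Real.rpow_le_rpow_of_exponent_le (by linarith) hA
  have hYge : 2 * u ≤ (⌈(2 * u) ^ A⌉₊ : ℝ) := hge.trans (Nat.le_ceil _)
  have hYQ : Q ≤ ⌈(2 * u) ^ A⌉₊ := by
    have : (Q : ℝ) ≤ (⌈(2 * u) ^ A⌉₊ : ℝ) := by linarith
    exact_mod_cast this
  have hY3 : 3 ≤ ⌈(2 * u) ^ A⌉₊ := by
    have : ((3 : ℕ) : ℝ) ≤ (⌈(2 * u) ^ A⌉₊ : ℝ) := by push_cast; linarith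
    exact_mod_cast this
  have hYle : (⌈(2 * u) ^ A⌉₊ : ℝ) ≤ (3 * u) ^ A := by
    have h1 := (Nat.ceil_lt_add_one (by positivity : 0 ≤ (2 * u) ^ A)).le
    have h2 : (1 : ℝ) ≤ u ^ A := Real.one_le_rpow (by linarith) (by linarith)
    have h3 : (2 * u) ^ A + u ^ A ≤ (2 * u + u) ^ A :=
      Real.add_rpow_le_rpow_add (by linarith) (by linarith) hA
    have h4 : 2 * u + u = 3 * u := by ring
    rw [h4] at h3
    linarith
  have hlY1 : 1 ≤ Real.log ⌈(2 * u) ^ A⌉₊ := one_le_log hY3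
  have hlY : Real.log ⌈(2 * u) ^ A⌉₊ ≤ l ^ 2 := by
    have h1 : Real.log ⌈(2 * u) ^ A⌉₊ ≤ Real.log ((3 * u) ^ A) :=
      Real.log_le_log (by linarith) hYle
    rw [Real.log_rpow (by linarith), Real.log_mul (by norm_num) (by linarith), ← hl] at h1
    exact h1.trans hqq
  have hllY : Real.log (Real.log ⌈(2 * u) ^ A⌉₊) ≤ 2 * Real.log l := by
    have h1 := Real.log_le_log (by linarith) hlY
    rw [Real.log_pow] at h1
    exact_mod_cast h1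
  have hll0 : 0 ≤ Real.log (Real.log ⌈(2 * u) ^ A⌉₊) := Real.log_nonneg hlY1
  have hll1 : 1 ≤ Real.log l := by
    rw [Real.le_log_iff_exp_le (by linarith)]
    linarith [Real.exp_one_lt_d9]
  refine ⟨hx, hYQ, hY3, by linarith, ?_, ?_⟩
  · rw [div_le_iff₀ hc] at hLc
    linarith
  · calc (1 + Real.log (Real.log ⌈(2 * u) ^ A⌉₊)) ^ 3 ≤ (3 * Real.log l) ^ 3 :=
          pow_le_pow_left₀ (by linarith) (by linarith) 3
      _ = 27 * Real.log l ^ 3 := by ring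
      _ ≤ 27 * (c / 27 * l) := mul_le_mul_of_nonneg_left hlt (by norm_num)
      _ = c * l := by ring

open Classical in
theorem t_DEV (h1 : S_EULLOG) (h2 : S_MSQ) : S_DEV := by
  intro d hd ρ hρ ε hε
  obtain ⟨A, hA, hE⟩ := h1
  obtain ⟨C, hC, hM⟩ := h2 d hd
  obtain ⟨K, hK⟩ : ∃ K : ℝ, K = 9 / ρ ^ 2 * C := ⟨_, rfl⟩
  have hK0 : 0 < K := by rw [hK]; positivity
  refine ⟨max (max d 1) (max ⌈3 / ρ⌉₊ ⌈6 * K / ε⌉₊), fun Q hQ => ?_⟩
  have hQd : d ≤ Q := (le_max_left _ _).trans ((le_max_left _ _).trans hQ)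
  have hQ1 : 1 ≤ Q := (le_max_right _ _).trans ((le_max_left _ _).trans hQ)
  have hQ2 : ⌈3 / ρ⌉₊ ≤ Q := (le_max_left _ _).trans ((le_max_right _ _).trans hQ)
  have hQ3 : ⌈6 * K / ε⌉₊ ≤ Q := (le_max_right _ _).trans ((le_max_right _ _).trans hQ)
  have hQ0 : (0 : ℝ) < Q := by exact_mod_cast hQ1
  have hQρ : 1 / (Q : ℝ) ≤ ρ / 3 := by
    have h3 : 3 / ρ ≤ Q := (Nat.le_ceil _).trans (by exact_mod_cast hQ2)
    rw [div_le_iff₀ hρ] at h3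
    rw [div_le_iff₀ hQ0]
    linarith
  have hQε : K / Q ≤ ε / 6 := by
    have h3 : 6 * K / ε ≤ Q := (Nat.le_ceil _).trans (by exact_mod_cast hQ3)
    rw [div_le_iff₀ hε] at h3
    rw [div_le_iff₀ hQ0]
    linarith
  filter_upwards [hE (ρ / 3) (by positivity) (ε / 2) (by positivity), size hA (c := ε / (6 * K)) (by positivity) Q]
    with x hx ⟨hx3, hQY, hY3, hl0, hl1, hl3⟩
  obtain ⟨Y, hY⟩ : ∃ Y, Y = ⌈(2 * Real.log x) ^ A⌉₊ := ⟨_, rfl⟩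
  rw [← hY] at hx hQY hY3 hl3
  obtain ⟨l, hl⟩ : ∃ l, l = Real.log (Real.log x) := ⟨_, rfl⟩
  rw [← hl] at hx hl0 hl1 hl3 ⊢
  have hM2 := hM Q Y x hQd hQY hx3 hY3
  rw [← hl] at hM2
  -- the second bad set
  let P1 : ℕ → Prop := fun p => ∃ (_ : NeZero p) (χ : DirichletCharacter ℂ p), χ ≠ 1 ∧ ρ / 3 < dev Y χ
  let P2 : ℕ → Prop := fun p => ∃ χ ∈ (Xall p).filter (fun χ => χ ^ d = 1 ∧ χ ≠ 1),
    ρ / 3 < ‖∑ q ∈ (Ioc Q Y).filter Nat.Prime, χ (q : ZMod p) / (q : ℂ)‖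
  have hsub : (Pr x).filter (fun p => ∃ (_ : NeZero p) (χ : DirichletCharacter ℂ p), χ ∈ Xd d p ∧
      ρ < dev Q χ) ⊆ (Pr x).filter P1 ∪ (Pr x).filter P2 := by
    intro p hp
    obtain ⟨hp1, hne, χ, hχ, hdev⟩ := Finset.mem_filter.1 hp
    have hord := mem_Xd.1 hχ
    have hχ1 : χ ≠ 1 := by
      rintro rfl
      rw [orderOf_one] at hord
      omega
    have hχd : χ ^ d = 1 := by rw [← hord]; exact pow_orderOf_eq_one χ
    have h3 := dev_le hQ1 hQY χ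
    rw [Finset.mem_union]
    by_cases h4 : ρ / 3 < dev Y χ
    · exact Or.inl (Finset.mem_filter.2 ⟨hp1, hne, χ, hχ1, h4⟩)
    · refine Or.inr (Finset.mem_filter.2 ⟨hp1, χ, ?_, ?_⟩)
      · have h0 : χ ∈ (Xall p).filter (fun χ => χ ^ d = 1 ∧ χ ≠ 1) := by
          rw [Finset.mem_filter]
          exact ⟨mem_Xall χ, hχd, hχ1⟩
        convert h0
      push Not at h4
      linarith
  have hs1 : ∑ p ∈ (Pr x).filter P1, 1 / (p : ℝ) ≤ ε / 2 * l := hx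
  have hs2 : ∑ p ∈ (Pr x).filter P2, 1 / (p : ℝ) ≤ 9 / ρ ^ 2 * (∑ p ∈ Pr x, (1 / (p : ℝ)) *
      ∑ χ ∈ (Xall p).filter (fun χ => χ ^ d = 1 ∧ χ ≠ 1),
        ‖∑ q ∈ (Ioc Q Y).filter Nat.Prime, χ (q : ZMod p) / (q : ℂ)‖ ^ 2) := by
    rw [Finset.mul_sum, Finset.sum_filter]
    refine Finset.sum_le_sum fun p hp => ?_
    have hnn : 0 ≤ ∑ χ ∈ (Xall p).filter (fun χ => χ ^ d = 1 ∧ χ ≠ 1),
        ‖∑ q ∈ (Ioc Q Y).filter Nat.Prime, χ (q : ZMod p) / (q : ℂ)‖ ^ 2 :=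
      Finset.sum_nonneg fun _ _ => by positivity
    split_ifs with hP
    · obtain ⟨χ, hχ, h3⟩ := hP
      have h4 : (ρ / 3) ^ 2 ≤ ∑ χ ∈ (Xall p).filter (fun χ => χ ^ d = 1 ∧ χ ≠ 1),
          ‖∑ q ∈ (Ioc Q Y).filter Nat.Prime, χ (q : ZMod p) / (q : ℂ)‖ ^ 2 :=
        (pow_le_pow_left₀ (by positivity) h3.le 2).trans
          (Finset.single_le_sum (f := fun χ : DirichletCharacter ℂ p =>
            ‖∑ q ∈ (Ioc Q Y).filter Nat.Prime, χ (q : ZMod p) / (q : ℂ)‖ ^ 2) (fun _ _ => by positivity) hχ)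
      have h5 : 1 ≤ 9 / ρ ^ 2 * ∑ χ ∈ (Xall p).filter (fun χ => χ ^ d = 1 ∧ χ ≠ 1),
          ‖∑ q ∈ (Ioc Q Y).filter Nat.Prime, χ (q : ZMod p) / (q : ℂ)‖ ^ 2 := by
        have h6 := mul_le_mul_of_nonneg_left h4 (by positivity : 0 ≤ 9 / ρ ^ 2)
        have h7 : 9 / ρ ^ 2 * (ρ / 3) ^ 2 = 1 := by field_simp; norm_num
        rw [h7] at h6
        exact h6
      have h6 := mul_le_mul_of_nonneg_left h5 (by positivity : 0 ≤ 1 / (p : ℝ))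
      linarith
    · positivity
  have hs3 : 9 / ρ ^ 2 * (∑ p ∈ Pr x, (1 / (p : ℝ)) *
      ∑ χ ∈ (Xall p).filter (fun χ => χ ^ d = 1 ∧ χ ≠ 1),
        ‖∑ q ∈ (Ioc Q Y).filter Nat.Prime, χ (q : ZMod p) / (q : ℂ)‖ ^ 2) ≤ ε / 2 * l := by
    refine (mul_le_mul_of_nonneg_left hM2 (by positivity : 0 ≤ 9 / ρ ^ 2)).trans ?_
    rw [← mul_assoc, ← hK]
    have e1 : K * (l / Q) ≤ ε / 6 * l := by
      have := mul_le_mul_of_nonneg_right hQε hl0.le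
      calc K * (l / Q) = K / Q * l := by ring
        _ ≤ _ := this
    have e2 : K * (1 + Real.log (Real.log Y)) ^ 3 ≤ ε / 6 * l := by
      calc K * (1 + Real.log (Real.log Y)) ^ 3 ≤ K * (ε / (6 * K) * l) := mul_le_mul_of_nonneg_left hl3 hK0.le
        _ = ε / 6 * l := by field_simp
    have e3 : K * 1 ≤ ε / 6 * l := by
      calc K * 1 ≤ K * (ε / (6 * K) * l) := mul_le_mul_of_nonneg_left hl1 hK0.le
        _ = ε / 6 * l := by field_simp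
    have e4 : K * (l / Q + (1 + Real.log (Real.log Y)) ^ 3 + 1) =
      K * (l / Q) + K * (1 + Real.log (Real.log Y)) ^ 3 + K * 1 := by ring
    rw [e4]
    linarith
  calc ∑ p ∈ (Pr x).filter (fun p => ∃ (_ : NeZero p) (χ : DirichletCharacter ℂ p), χ ∈ Xd d p ∧
      ρ < dev Q χ), 1 / (p : ℝ) ≤ ∑ p ∈ (Pr x).filter P1 ∪ (Pr x).filter P2, 1 / (p : ℝ) :=
        Finset.sum_le_sum_of_subset_of_nonneg hsub fun _ _ _ => by positivity
    _ ≤ ∑ p ∈ (Pr x).filter P1, 1 / (p : ℝ) + ∑ p ∈ (Pr x).filter P2, 1 / (p : ℝ) := by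
        rw [← Finset.sum_union_inter]
        have : 0 ≤ ∑ p ∈ (Pr x).filter P1 ∩ (Pr x).filter P2, 1 / (p : ℝ) :=
          Finset.sum_nonneg fun _ _ => by positivity
        linarith
    _ ≤ ε * l := by linarith

end Pool.Agent.K1H48.RG
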